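import Mathlib

/-!
# Products of shift orbit relations: a Baire category lemma

`G` is a countable infinite group, `P = ℕ → G → Bool`, on which `ℕ → G` acts coordinatewise by the
shifts. There is no Borel map `Ψ` on `P` which maps (off a meagre set) points with different orbits to
different values and each orbit to a countable set.
-/

open Set Filter Topology MeasureTheory

namespace Pool.Agent.N623.JumpCore

variable {G : Type*} [Group G]

/-- the coordinatewise shift action -/
def act (γ : ℕ → G) (x : ℕ → G → Bool) : ℕ → G → Bool := fun i h => x i ((γ i)⁻¹ * h)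

lemma act_mul (γ δ : ℕ → G) (x : ℕ → G → Bool) : act (fun i => γ i * δ i) x = act γ (act δ x) := by
  funext i h
  simp [act, mul_assoc]

lemma act_one (x : ℕ → G → Bool) : act (fun _ => (1 : G)) x = x := by
  funext i h
  simp [act]

lemma continuous_act (γ : ℕ → G) : Continuous (act γ) := by
  unfold act
  fun_prop

/-- `act γ` as a homeomorphism -/
def actH (γ : ℕ → G) : (ℕ → G → Bool) ≃ₜ (ℕ → G → Bool) where
  toFun := act γ
  invFun := act (fun i => (γ i)⁻¹)
  left_inv x := by rw [← act_mul]; simp [act_one]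
  right_inv x := by rw [← act_mul]; simp [act_one]
  continuous_toFun := continuous_act _
  continuous_invFun := continuous_act _

/-- finitely supported elements of `ℕ → G`, coded by lists -/
def tg (l : List G) : ℕ → G := fun i => l.getD i 1

lemma exists_tg {γ : ℕ → G} {N : ℕ} (h : ∀ i, N ≤ i → γ i = 1) : ∃ l : List G, tg l = γ := by
  refine ⟨(List.range N).map γ, ?_⟩
  funext i
  unfold tg
  by_cases hi : i < N
  · simp [List.getD_eq_getElem?_getD, hi]
  · have hi' : N ≤ i := by omega
    rw [h i hi', List.getD_eq_default]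
    simpa using hi'

lemma tg_of_le (l : List G) {i : ℕ} (h : l.length ≤ i) : tg l i = 1 := by
  unfold tg
  rw [List.getD_eq_default _ _ h]

/-- flipping the coordinate `j` -/
def flip (j : ℕ) (x : ℕ → G → Bool) : ℕ → G → Bool := fun i h => if i = j then !(x i h) else x i h

lemma flip_flip (j : ℕ) (x : ℕ → G → Bool) : flip j (flip j x) = x := by
  funext i h
  unfold flip
  split_ifs <;> simp

lemma continuous_flip (j : ℕ) : Continuous (flip j : (ℕ → G → Bool) → ℕ → G → Bool) := by
  refine continuous_pi fun i => continuous_pi fun h => ?_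
  unfold flip
  split_ifs
  · exact (continuous_of_discreteTopology (f := fun b : Bool => !b)).comp
      (by fun_prop : Continuous fun x : ℕ → G → Bool => x i h)
  · fun_prop

def flipH (j : ℕ) : (ℕ → G → Bool) ≃ₜ (ℕ → G → Bool) where
  toFun := flip j
  invFun := flip j
  left_inv := flip_flip j
  right_inv := flip_flip j
  continuous_toFun := continuous_flip j
  continuous_invFun := continuous_flip j

lemma flip_act (j : ℕ) (γ : ℕ → G) (x : ℕ → G → Bool) : flip j (act γ x) = act γ (flip j x) := by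
  funext i h
  unfold flip act
  rfl

/-- an open set around a point contains all the points with the same first coordinates -/
lemma exists_bound {U : Set (ℕ → G → Bool)} (hU : IsOpen U) {x : ℕ → G → Bool} (hx : x ∈ U) :
    ∃ N, ∀ y : ℕ → G → Bool, (∀ i < N, y i = x i) → y ∈ U := by
  obtain ⟨I, u, hu, hsub⟩ := isOpen_pi_iff.1 hU x hx
  refine ⟨I.sup id + 1, fun y hy => hsub ?_⟩
  intro i hi
  have := Finset.le_sup (f := id) (show i ∈ I from hi)
  simp only [id] at this
  rw [hy i (by omega)]
  exact (hu i hi).2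

section Generic

variable [Countable G] [Infinite G]

/-- the generic element of `G → Bool` has a dense orbit -/
lemma dense_orbit : {y : G → Bool | Dense (Set.range fun g : G => fun h => y (g⁻¹ * h))} ∈
    residual (G → Bool) := by
  classical
  have key : ∀ V ∈ TopologicalSpace.countableBasis (G → Bool),
      {y : G → Bool | ∃ g : G, (fun h => y (g⁻¹ * h)) ∈ V} ∈ residual (G → Bool) := by
    intro V hV
    have hVo := TopologicalSpace.isOpen_of_mem_countableBasis hV
    have hVn := TopologicalSpace.nonempty_of_mem_countableBasis hV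
    apply residual_of_dense_open
    · have : {y : G → Bool | ∃ g : G, (fun h => y (g⁻¹ * h)) ∈ V} =
          ⋃ g : G, (fun y : G → Bool => fun h => y (g⁻¹ * h)) ⁻¹' V := by
        ext y; simp
      rw [this]
      exact isOpen_iUnion fun g => hVo.preimage (by fun_prop)
    · rw [dense_iff_inter_open]
      intro W hW ⟨w, hw⟩
      obtain ⟨v, hv⟩ := hVn
      obtain ⟨I, u, hu, hsub⟩ := isOpen_pi_iff.1 hW w hw
      obtain ⟨J, u', hu', hsub'⟩ := isOpen_pi_iff.1 hVo v hv
      -- find g with g⁻¹ J disjoint from I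
      have hfin : ((Finset.image₂ (fun b a => b * a⁻¹) J I : Finset G) : Set G).Finite :=
        Finset.finite_toSet _
      obtain ⟨g, hg⟩ := hfin.exists_notMem
      refine ⟨fun h => if g * h ∈ J then v (g * h) else w h, hsub ?_, g, hsub' ?_⟩
      · intro a ha
        have : g * a ∉ J := by
          intro hgJ
          apply hg
          simp only [Finset.coe_image₂, Set.mem_image2]
          exact ⟨g * a, hgJ, a, ha, by simp⟩
        simp only [this, if_false]
        exact (hu a ha).2
      · intro b hb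
        have hb' : b ∈ J := hb
        simp only [mul_inv_cancel_left, hb', if_true]
        exact (hu' b hb).2
  have hres := (countable_bInter_mem (TopologicalSpace.countable_countableBasis (G → Bool))).2 key
  filter_upwards [hres] with y hy
  rw [(TopologicalSpace.isBasis_countableBasis (G → Bool)).dense_iff]
  intro V hV hVn
  have := Set.mem_iInter₂.1 hy V hV
  obtain ⟨g, hg⟩ := this
  exact ⟨_, hg, g, rfl⟩

/-- the generic element of `G → Bool` is not in the orbit of its complement -/
lemma not_flip_orbit : {y : G → Bool | ∀ g : G, ∃ h, y (g⁻¹ * h) = y h} ∈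
    residual (G → Bool) := by
  classical
  have : {y : G → Bool | ∀ g : G, ∃ h, y (g⁻¹ * h) = y h} =
      ⋂ g : G, {y : G → Bool | ∃ h, y (g⁻¹ * h) = y h} := by
    ext y; simp
  rw [this, countable_iInter_mem]
  intro g
  apply residual_of_dense_open
  · have : {y : G → Bool | ∃ h, y (g⁻¹ * h) = y h} = ⋃ h : G, {y : G → Bool | y (g⁻¹ * h) = y h} := by
      ext y; simp
    rw [this]
    refine isOpen_iUnion fun h => ?_
    have h1 : Continuous fun y : G → Bool => (y (g⁻¹ * h), y h) := by fun_prop
    exact (isOpen_discrete {p : Bool × Bool | p.1 = p.2}).preimage h1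
  · rw [dense_iff_inter_open]
    intro W hW ⟨w, hw⟩
    obtain ⟨I, u, hu, hsub⟩ := isOpen_pi_iff.1 hW w hw
    have hfin : ((I ∪ I.image (fun a => g * a) : Finset G) : Set G).Finite :=
      Finset.finite_toSet _
    obtain ⟨h, hh⟩ := hfin.exists_notMem
    simp only [Finset.coe_union, Finset.coe_image, Set.mem_union, Finset.mem_coe, Set.mem_image,
      not_or, not_exists, not_and] at hh
    refine ⟨fun a => if a = h ∨ a = g⁻¹ * h then true else w a, hsub ?_, h, ?_⟩
    · intro a ha
      have h1 : a ≠ h := fun e => hh.1 (e ▸ ha)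
      have h2 : a ≠ g⁻¹ * h := fun e => hh.2 a ha (by rw [e]; simp)
      simp only [h1, h2, or_self, if_false]
      exact (hu a ha).2
    · simp

end Generic

section Core

variable [Countable G] [Infinite G] {Z : Type*} [MeasurableSpace Z]
  [MeasurableSpace.CountablySeparated Z]

/-- On a comeagre set the map `Ψ` is determined by countably many open sets. -/
lemma exists_good (Ψ : (ℕ → G → Bool) → Z) (hΨ : Measurable Ψ) :
    ∃ (T : ℕ × Bool → Set Z) (U : ℕ × Bool → Set (ℕ → G → Bool)) (O : ℕ → Set (ℕ → G → Bool)),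
      (∀ p, IsOpen (U p)) ∧ (∀ m, IsOpen (O m)) ∧ (∀ m, Dense (O m)) ∧
      (∀ z w, z ≠ w → ∃ p, z ∈ T p ∧ w ∉ T p) ∧ (∀ p, T (p.1, !p.2) = (T p)ᶜ) ∧
      (∀ x, (∀ m, x ∈ O m) → (∀ p, Ψ x ∈ T p ↔ x ∈ U p)) ∧
      (∀ x, (∀ m, x ∈ O m) → ∀ i, ∃ h, x i h = true) := by
  classical
  obtain ⟨S, hS, hsep⟩ := exists_seq_separating Z (p := MeasurableSet) MeasurableSet.empty univ
  let T : ℕ × Bool → Set Z := fun p => if p.2 then S p.1 else (S p.1)ᶜ
  have hT : ∀ p, MeasurableSet (T p) := by
    rintro ⟨n, b⟩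
    cases b
    · exact (hS n).compl
    · exact hS n
  have hU : ∀ p, ∃ U : Set (ℕ → G → Bool), IsOpen U ∧ (Ψ ⁻¹' (T p)) =ᶠ[residual _] U := fun p =>
    ((hΨ (hT p)).baireMeasurableSet).residualEq_isOpen
  choose U hUo hUe using hU
  have hP0 : {x : ℕ → G → Bool | ∀ i, ∃ h, x i h = true} ∈ residual (ℕ → G → Bool) := by
    have : {x : ℕ → G → Bool | ∀ i, ∃ h, x i h = true} =
        ⋂ i, {x : ℕ → G → Bool | ∃ h, x i h = true} := by
      ext x; simp
    rw [this, countable_iInter_mem]
    intro i
    apply residual_of_dense_open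
    · have : {x : ℕ → G → Bool | ∃ h, x i h = true} = ⋃ h : G, {x | x i h = true} := by
        ext x; simp
      rw [this]
      refine isOpen_iUnion fun h => ?_
      have h1 : Continuous fun x : ℕ → G → Bool => x i h := by fun_prop
      exact (isOpen_discrete {b : Bool | b = true}).preimage h1
    · have h2 : {x : ℕ → G → Bool | ∃ h, x i h = true} =
          Function.eval i ⁻¹' {y : G → Bool | ∃ h, y h = true} := rfl
      rw [h2]
      refine Dense.preimage ?_ (isOpenMap_eval i)
      rw [dense_iff_inter_open]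
      intro W hW ⟨w, hw⟩
      obtain ⟨I, u, hu, hsub⟩ := isOpen_pi_iff.1 hW w hw
      obtain ⟨h, hh⟩ := (Finset.finite_toSet I).exists_notMem
      refine ⟨fun a => if a = h then true else w a, hsub ?_, h, by simp⟩
      intro a ha
      have h1 : a ≠ h := fun e => hh (e ▸ ha)
      simp only [h1, if_false]
      exact (hu a ha).2
  have hres : {x : ℕ → G → Bool | (∀ p, Ψ x ∈ T p ↔ x ∈ U p) ∧ ∀ i, ∃ h, x i h = true} ∈
      residual (ℕ → G → Bool) := by
    have h1 : ∀ p, ∀ᶠ x in residual (ℕ → G → Bool), (Ψ x ∈ T p ↔ x ∈ U p) := by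
      intro p
      filter_upwards [hUe p] with x hx
      exact Iff.of_eq hx
    filter_upwards [eventually_countable_forall.2 h1, hP0] with x hx hx'
    exact ⟨hx, hx'⟩
  obtain ⟨t, htsub, htG, htd⟩ := mem_residual.1 hres
  obtain ⟨O, hO, rfl⟩ := htG.eq_iInter_nat
  refine ⟨T, U, O, hUo, hO, fun m => htd.mono (iInter_subset _ m), ?_, ?_, ?_, ?_⟩
  · intro z w hzw
    by_contra hcon
    push Not at hcon
    apply hzw
    apply hsep z trivial w trivial
    intro n
    constructor
    · intro h
      exact hcon (n, true) h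
    · intro h
      by_contra h'
      exact hcon (n, false) h' h
  · rintro ⟨n, b⟩
    cases b <;> simp [T]
  · intro x hx
    exact (htsub (mem_iInter.2 hx)).1
  · intro x hx
    exact (htsub (mem_iInter.2 hx)).2

/-- **Core lemma.** -/
theorem core (Ψ : (ℕ → G → Bool) → Z) (hΨ : Measurable Ψ) (r : ℕ → Z → Z)
    (h1 : ∀ (x : ℕ → G → Bool) (γ : ℕ → G), ∃ n, Ψ (act γ x) = r n (Ψ x))
    (h2 : ∀ x y : ℕ → G → Bool, (∀ i, ∃ h, x i h = true) → (∀ i, ∃ h, y i h = true) →
      Ψ x = Ψ y → ∃ γ : ℕ → G, y = act γ x) : False := by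
  classical
  obtain ⟨T, U, O, hU, hO, hOd, hsep, hTc, hgood, hP0⟩ := exists_good Ψ hΨ
  -- the invariant comeagre set
  let C : Set (ℕ → G → Bool) := {x | ∀ (l : List G) (m : ℕ), act (tg l) x ∈ O m}
  have hCO : ∀ x ∈ C, ∀ m, x ∈ O m := by
    intro x hx m
    have := hx [] m
    have h0 : tg ([] : List G) = fun _ => 1 := by
      funext i; simp [tg]
    rwa [h0, act_one] at this
  have hCinv : ∀ x ∈ C, ∀ l : List G, act (tg l) x ∈ C := by
    intro x hx l l' m
    rw [← act_mul]
    obtain ⟨l'', hl''⟩ := exists_tg (γ := fun i => tg l' i * tg l i) (N := max l'.length l.length)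
      (by intro i hi; simp only [tg_of_le l' (le_trans (le_max_left _ _) hi),
            tg_of_le l (le_trans (le_max_right _ _) hi), mul_one])
    rw [← hl'']
    exact hx l'' m
  have hCres : C ∈ residual (ℕ → G → Bool) := by
    have : C = ⋂ l : List G, ⋂ m : ℕ, (actH (tg l)) ⁻¹' (O m) := by
      ext x; simp [C, actH]
    rw [this, countable_iInter_mem]
    intro l
    rw [countable_iInter_mem]
    intro m
    exact residual_of_dense_open ((hO m).preimage (actH (tg l)).continuous)
      ((hOd m).preimage (actH (tg l)).isOpenMap)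
  -- the sets on which Ψ is invariant
  let Q : ℕ → Set (ℕ → G → Bool) := fun N =>
    {y | y ∈ C ∧ ∀ l : List G, (∀ i < N, tg l i = 1) → Ψ (act (tg l) y) = Ψ y}
  -- every point of C has a finite modification in some Q N
  have hcover : ∀ x ∈ C, ∃ (l : List G) (N : ℕ), act (tg l) x ∈ Q N := by
    intro x hx
    by_contra hcon
    push Not at hcon
    -- one step
    have step : ∀ (γ : ℕ → G) (N n : ℕ), (∀ i, N ≤ i → γ i = 1) →
        ∃ (γ' : ℕ → G) (N' : ℕ), N < N' ∧ (∀ i < N, γ' i = γ i) ∧ (∀ i, N' ≤ i → γ' i = 1) ∧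
          ∀ γ'' : ℕ → G, (∀ i < N', γ'' i = γ' i) → act γ'' x ∈ O n ∧
            ((∀ m, act γ'' x ∈ O m) → Ψ (act γ'' x) ≠ r n (Ψ x)) := by
      intro γ N n hγ
      obtain ⟨l, hl⟩ := exists_tg hγ
      -- find γ' with Ψ (act γ' x) ≠ r n (Ψ x)
      obtain ⟨γ₁, N₁, hN₁, h1a, h1b, h1c⟩ : ∃ (γ₁ : ℕ → G) (N₁ : ℕ), N < N₁ ∧
          (∀ i < N, γ₁ i = γ i) ∧ (∀ i, N₁ ≤ i → γ₁ i = 1) ∧ Ψ (act γ₁ x) ≠ r n (Ψ x) := by
        by_cases hc : Ψ (act γ x) = r n (Ψ x)
        · have h3 := hcon l N
          have h4 : act (tg l) x ∈ C := hCinv x hx l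
          simp only [Q, Set.mem_setOf_eq, not_and, not_forall] at h3
          obtain ⟨l', hl', hne⟩ := h3 h4
          rw [hl, ← act_mul] at hne
          refine ⟨fun i => tg l' i * γ i, max (N + 1) l'.length, by omega, ?_, ?_, ?_⟩
          · intro i hi
            simp [hl' i hi]
          · intro i hi
            simp only
            rw [hγ i (by omega), tg_of_le l' (by omega), mul_one]
          · rwa [hc] at hne
        · exact ⟨γ, N + 1, by omega, fun _ _ => rfl, fun i hi => hγ i (by omega), hc⟩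
      obtain ⟨l₁, hl₁⟩ := exists_tg h1b
      have hC1 : act γ₁ x ∈ C := hl₁ ▸ hCinv x hx l₁
      obtain ⟨p, hp1, hp2⟩ := hsep _ _ h1c
      have hUp : act γ₁ x ∈ U p := (hgood _ (hCO _ hC1) p).1 hp1
      obtain ⟨M₁, hM₁⟩ := exists_bound (hU p) hUp
      obtain ⟨M₂, hM₂⟩ := exists_bound (hO n) (hCO _ hC1 n)
      refine ⟨γ₁, max N₁ (max M₁ M₂), by omega, h1a, fun i hi => h1b i (by omega), ?_⟩
      intro γ'' hγ''
      have heq : ∀ i < max N₁ (max M₁ M₂), act γ'' x i = act γ₁ x i := by
        intro i hi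
        funext h
        simp only [act, hγ'' i hi]
      refine ⟨hM₂ _ fun i hi => heq i (by omega), fun hall => ?_⟩
      have h5 : act γ'' x ∈ U p := hM₁ _ fun i hi => heq i (by omega)
      have h6 := (hgood _ hall p).2 h5
      intro h7
      exact hp2 (h7 ▸ h6)
    -- the recursion
    let St := {s : (ℕ → G) × ℕ // ∀ i, s.2 ≤ i → s.1 i = 1}
    have step' : ∀ (s : St) (n : ℕ), ∃ s' : St, s.1.2 < s'.1.2 ∧ (∀ i < s.1.2, s'.1.1 i = s.1.1 i) ∧
        ∀ γ'' : ℕ → G, (∀ i < s'.1.2, γ'' i = s'.1.1 i) → act γ'' x ∈ O n ∧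
            ((∀ m, act γ'' x ∈ O m) → Ψ (act γ'' x) ≠ r n (Ψ x)) := by
      rintro ⟨⟨γ, N⟩, hs⟩ n
      obtain ⟨γ', N', h1, h2, h3, h4⟩ := step γ N n hs
      exact ⟨⟨(γ', N'), h3⟩, h1, h2, h4⟩
    choose nxt hn1 hn2 hn3 using step'
    let s : ℕ → St := fun n => Nat.rec ⟨((fun _ => 1), 0), fun _ _ => rfl⟩ (fun n s => nxt s n) n
    have hs_succ : ∀ n, s (n + 1) = nxt (s n) n := fun n => rfl
    have hbd : ∀ n, n ≤ (s n).1.2 := by
      intro n
      induction n with
      | zero => exact Nat.zero_le _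
      | succ n ih =>
        have := hn1 (s n) n
        rw [hs_succ]
        omega
    have hmono : ∀ n k, (s n).1.2 ≤ (s (n + k)).1.2 ∧
        ∀ i < (s n).1.2, (s (n + k)).1.1 i = (s n).1.1 i := by
      intro n k
      induction k with
      | zero => exact ⟨le_rfl, fun _ _ => rfl⟩
      | succ k ih =>
        have h3 := hn1 (s (n + k)) (n + k)
        have h4 := hn2 (s (n + k)) (n + k)
        rw [← add_assoc, hs_succ]
        refine ⟨by omega, fun i hi => ?_⟩
        rw [h4 i (by omega), ih.2 i hi]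
    let γ : ℕ → G := fun i => (s (i + 1)).1.1 i
    have hγ : ∀ n, ∀ i < (s n).1.2, γ i = (s n).1.1 i := by
      intro n i hi
      rcases le_total n (i + 1) with h | h
      · obtain ⟨k, hk⟩ := Nat.exists_eq_add_of_le h
        have := (hmono n k).2 i hi
        simp only [γ]
        rw [hk]
        exact this
      · obtain ⟨k, hk⟩ := Nat.exists_eq_add_of_le h
        have := (hmono (i + 1) k).2 i (by have := hbd (i + 1); omega)
        simp only [γ]
        rw [hk]
        exact this.symm
    have hfin : ∀ n, act γ x ∈ O n ∧ ((∀ m, act γ x ∈ O m) → Ψ (act γ x) ≠ r n (Ψ x)) := by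
      intro n
      have := hn3 (s n) n γ (by rw [← hs_succ]; exact hγ (n + 1))
      exact this
    obtain ⟨n, hn⟩ := h1 x γ
    exact (hfin n).2 (fun m => (hfin m).1) hn
  -- Baire category
  obtain ⟨l, N, V, hVo, hVne, hV⟩ : ∃ (l : List G) (N : ℕ) (V : Set (ℕ → G → Bool)), IsOpen V ∧
      V.Nonempty ∧ V ⊆ closure {x | x ∈ C ∧ act (tg l) x ∈ Q N} := by
    by_contra hcon
    push Not at hcon
    have hm : IsMeagre (⋃ p : List G × ℕ, {x : ℕ → G → Bool | x ∈ C ∧ act (tg p.1) x ∈ Q p.2}) := by
      refine isMeagre_iUnion fun p => IsNowhereDense.isMeagre ?_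
      rw [IsNowhereDense]
      by_contra hne
      exact hcon p.1 p.2 _ isOpen_interior (Set.nonempty_iff_ne_empty.2 hne) interior_subset
    have h3 : (⋃ p : List G × ℕ, {x : ℕ → G → Bool | x ∈ C ∧ act (tg p.1) x ∈ Q p.2})ᶜ ∩ C ∈
        residual (ℕ → G → Bool) := inter_mem hm hCres
    obtain ⟨x, hx1, hx2⟩ := (dense_of_mem_residual h3).nonempty
    obtain ⟨l, N, hlN⟩ := hcover x hx2
    exact hx1 (mem_iUnion.2 ⟨(l, N), hx2, hlN⟩)
  -- closedness
  have hVQ : ∀ x ∈ C, x ∈ V → act (tg l) x ∈ Q N := by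
    intro x hx hxV
    refine ⟨hCinv x hx l, fun l' hl' => ?_⟩
    by_contra hne
    obtain ⟨p, hp1, hp2⟩ := hsep _ _ hne
    have hy := hCinv x hx l
    have hy' := hCinv _ hy l'
    have hp2' : Ψ (act (tg l) x) ∈ T (p.1, !p.2) := by rw [hTc]; exact hp2
    have e1 := (hgood _ (hCO _ hy') p).1 hp1
    have e2 := (hgood _ (hCO _ hy) _).1 hp2'
    have hW : IsOpen (V ∩ ((fun x => act (tg l') (act (tg l) x)) ⁻¹' (U p)) ∩
        ((act (tg l)) ⁻¹' (U (p.1, !p.2)))) :=
      (hVo.inter ((hU p).preimage ((continuous_act _).comp (continuous_act _)))).inter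
        ((hU _).preimage (continuous_act _))
    obtain ⟨z, ⟨⟨hz1, hz2⟩, hz3⟩, hzC, hzQ⟩ := mem_closure_iff.1 (hV hxV) _ hW ⟨⟨hxV, e1⟩, e2⟩
    have hz4 := hzQ.2 l' hl'
    have hzl := hCinv z hzC l
    have hzl' := hCinv _ hzl l'
    have e3 := (hgood _ (hCO _ hzl') p).2 hz2
    have e4 := (hgood _ (hCO _ hzl) _).2 hz3
    rw [hTc, ← hz4] at e4
    exact e4 e3
  -- a box
  obtain ⟨v, hv⟩ := hVne
  obtain ⟨I, u, hu, hsub⟩ := isOpen_pi_iff.1 hVo v hv
  obtain ⟨j, hj⟩ := (Finset.finite_toSet (I ∪ Finset.range N)).exists_notMem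
  simp only [Finset.coe_union, Finset.coe_range, Set.mem_union, Finset.mem_coe, Set.mem_Iio,
    not_or, not_lt] at hj
  have hBo : IsOpen ((I : Set ℕ).pi u) := isOpen_set_pi (Finset.finite_toSet I) fun a ha => (hu a ha).1
  have hBne : ((I : Set ℕ).pi u).Nonempty := ⟨v, fun a ha => (hu a ha).2⟩
  -- a generic point
  have hgen : {z : ℕ → G → Bool | z ∈ C ∧ flip j z ∈ C ∧
      Dense (Set.range fun g : G => fun h => z j (g⁻¹ * h)) ∧
      ∀ g : G, ∃ h, z j (g⁻¹ * h) = z j h} ∈ residual (ℕ → G → Bool) := by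
    have r1 : (flip j) ⁻¹' C ∈ residual (ℕ → G → Bool) := by
      have : (flip j) ⁻¹' C = ⋂ l : List G, ⋂ m : ℕ,
          ((actH (tg l)) ∘ (flipH j)) ⁻¹' (O m) := by
        ext x; simp [C, actH, flipH]
      rw [this, countable_iInter_mem]
      intro l
      rw [countable_iInter_mem]
      intro m
      exact residual_of_dense_open
        ((hO m).preimage ((actH (tg l)).continuous.comp (flipH j).continuous))
        ((hOd m).preimage ((actH (tg l)).isOpenMap.comp (flipH j).isOpenMap))
    have pull : ∀ s ∈ residual (G → Bool), (Function.eval j : (ℕ → G → Bool) → _) ⁻¹' s ∈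
        residual (ℕ → G → Bool) := by
      intro s hs
      obtain ⟨S, hS1, hS2, hS3, hS4⟩ := mem_residual_iff.1 hs
      have : ⋂₀ ((fun t => (Function.eval j : (ℕ → G → Bool) → _) ⁻¹' t) '' S) ⊆
          (Function.eval j) ⁻¹' s := by
        intro x hx
        apply hS4
        intro t ht
        exact hx _ ⟨t, ht, rfl⟩
      refine mem_of_superset ?_ this
      refine (countable_sInter_mem (hS3.image _)).2 ?_
      rintro _ ⟨t, ht, rfl⟩
      exact residual_of_dense_open ((hS1 t ht).preimage (continuous_apply j))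
        ((hS2 t ht).preimage (isOpenMap_eval j))
    filter_upwards [hCres, r1, pull _ dense_orbit, pull _ not_flip_orbit] with z z1 z2 z3 z4
    exact ⟨z1, z2, z3, z4⟩
  obtain ⟨z, hzB, hzC, hzF, hzD, hzO⟩ := (dense_of_mem_residual hgen).inter_open_nonempty _ hBo hBne
  have hFB : flip j z ∈ (I : Set ℕ).pi u := by
    intro a ha
    have : a ≠ j := fun e => hj.1 (e ▸ ha)
    have h8 : flip j z a = z a := by
      funext h; simp [flip, this]
    rw [h8]
    exact hzB a ha
  set y := act (tg l) z with hy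
  have hyQ : y ∈ Q N := hVQ z hzC (hsub hzB)
  have hyC : y ∈ C := hyQ.1
  have hy'C : flip j y ∈ C := by
    rw [hy, flip_act]
    exact hCinv _ hzF l
  have hyF : Ψ (flip j y) = Ψ y := by
    by_contra hne
    obtain ⟨p, hp1, hp2⟩ := hsep _ _ hne
    have e1 := (hgood _ (hCO _ hy'C) p).1 hp1
    -- the orbit of y in coordinate j is dense
    have hDy : Dense (Set.range fun g : G => fun h => y j (g⁻¹ * h)) := by
      have : (Set.range fun g : G => fun h => y j (g⁻¹ * h)) =
          Set.range fun g : G => fun h => z j (g⁻¹ * h) := by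
        ext w
        constructor
        · rintro ⟨g, rfl⟩
          refine ⟨g * tg l j, ?_⟩
          funext h
          simp [hy, act, mul_assoc]
        · rintro ⟨g, rfl⟩
          refine ⟨g * (tg l j)⁻¹, ?_⟩
          funext h
          simp [hy, act, mul_assoc]
      rw [this]
      exact hzD
    -- use an open box around flip j y
    obtain ⟨I', u', hu', hsub'⟩ := isOpen_pi_iff.1 (hU p) _ e1
    have hopen : IsOpen (if j ∈ I' then u' j else univ) := by
      split_ifs with h
      · exact (hu' j h).1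
      · exact isOpen_univ
    have hne' : (if j ∈ I' then u' j else univ).Nonempty := by
      split_ifs with h
      · exact ⟨_, (hu' j h).2⟩
      · exact univ_nonempty
    obtain ⟨w, hw1, g, rfl⟩ := hDy.inter_open_nonempty _ hopen hne'
    obtain ⟨l', hl'⟩ := exists_tg (γ := fun i => if i = j then g else (1 : G)) (N := j + 1)
      (by intro i hi; have : i ≠ j := by omega
          simp [this])
    have hl'1 : ∀ i < N, tg l' i = 1 := by
      intro i hi
      rw [hl']
      have : i ≠ j := by omega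
      simp [this]
    have h9 : act (tg l') y ∈ U p := by
      apply hsub'
      intro a ha
      by_cases haj : a = j
      · subst haj
        have ha' : a ∈ I' := ha
        simp only [ha', if_true] at hw1
        have : act (tg l') y a = fun h => y a (g⁻¹ * h) := by
          funext h; simp [act, hl']
        rw [this]
        exact hw1
      · have : act (tg l') y a = flip j y a := by
          funext h; simp [act, hl', haj, flip]
        rw [this]
        exact (hu' a ha).2
    have h10 := (hgood _ (hCO _ (hCinv y hyC l')) p).2 h9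
    rw [hyQ.2 l' hl'1] at h10
    exact hp2 h10
  obtain ⟨γ, hγ⟩ := h2 y (flip j y) (hP0 _ (hCO _ hyC)) (hP0 _ (hCO _ hy'C)) hyF.symm
  -- contradiction
  have h11 : ∀ h, (!y j h) = y j ((γ j)⁻¹ * h) := by
    intro h
    have := congrFun (congrFun hγ j) h
    simpa [flip, act] using this
  obtain ⟨h, hh⟩ := hzO ((tg l j)⁻¹ * γ j * tg l j)
  have h12 := h11 (tg l j * h)
  simp only [hy, act] at h12
  rw [show (tg l j)⁻¹ * (tg l j * h) = h by group,
    show (tg l j)⁻¹ * ((γ j)⁻¹ * (tg l j * h)) = ((tg l j)⁻¹ * γ j * tg l j)⁻¹ * h by group,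
    hh] at h12
  simp at h12

end Core

end Pool.Agent.N623.JumpCore
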