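import Mathlib

/-!
# Jumps of equivalence relations: definitions
-/

namespace Pool.Agent.N623.Jump

universe u v

/-- The `G`-jump of an equivalence relation `E` on `X`: the relation on `G → X` that relates `α` and
`β` if there is `g ∈ G` with `α (g⁻¹ h) E β h` for all `h ∈ G`. -/
def jump (G : Type u) [Group G] {X : Type v} (E : Setoid X) : Setoid (G → X) where
  r α β := ∃ g : G, ∀ h : G, E (α (g⁻¹ * h)) (β h)
  iseqv := by
    refine ⟨fun α => ⟨1, fun h => ?_⟩, ?_, ?_⟩
    · rw [inv_one, one_mul]
    · rintro α β ⟨g, hg⟩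
      refine ⟨g⁻¹, fun h => ?_⟩
      have := hg (g * h)
      rw [inv_mul_cancel_left] at this
      rw [inv_inv]
      exact E.symm this
    · rintro α β γ ⟨g, hg⟩ ⟨k, hk⟩
      refine ⟨k * g, fun h => ?_⟩
      rw [mul_inv_rev, mul_assoc]
      exact E.trans (hg (k⁻¹ * h)) (hk h)

/-- `E` is Borel reducible to `F`: there is a Borel map `f` with `x E x' ↔ f x F f x'`. -/
def BorelReducible {X : Type u} {Y : Type v} [TopologicalSpace X] [TopologicalSpace Y]
    (E : Setoid X) (F : Setoid Y) : Prop :=
  ∃ f : X → Y, @Measurable X Y (borel X) (borel Y) f ∧ ∀ x x' : X, E x x' ↔ F (f x) (f x')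

/-- `E` and `F` are Borel bireducible. -/
def Bireducible {X : Type u} {Y : Type v} [TopologicalSpace X] [TopologicalSpace Y]
    (E : Setoid X) (F : Setoid Y) : Prop :=
  BorelReducible E F ∧ BorelReducible F E

/-- `E` is smooth: there is a Borel map into a Polish space whose fibres are the classes of `E`. -/
def Smooth {X : Type u} [TopologicalSpace X] (E : Setoid X) : Prop :=
  ∃ (Z : Type) (_ : TopologicalSpace Z) (_ : PolishSpace Z) (f : X → Z),
    @Measurable X Z (borel X) (borel Z) f ∧ ∀ x y : X, E x y ↔ f x = f y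

end Pool.Agent.N623.Jump
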