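import Pool.Agent.N623.JumpDefs
import Pool.Agent.N623.JumpCore

/-!
# The iterated jump of an equivalence relation with two classes is not essentially countable
-/

open Set Filter Topology MeasureTheory

namespace Pool.Agent.N623.Jump

open Pool.Agent.N623.JumpCore

/-- If `E` has at least two classes and `G`, `H` are infinite countable groups, then there is no
Borel map `θ` to a countably separated space which maps each class of the iterated jump into the
countable set of the `r n z`, and points in different classes to different values. -/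
theorem no_map {G H X Z : Type*} [Group G] [Group H] [Countable G] [Countable H] [Infinite G]
    [Infinite H] [TopologicalSpace X] [PolishSpace X] [MeasurableSpace Z]
    [MeasurableSpace.CountablySeparated Z] (E : Setoid X) {a₀ a₁ : X} (ha : ¬ E a₀ a₁)
    (θ : (H → G → X) → Z) (hθ : @Measurable _ _ (borel _) _ θ) (r : ℕ → Z → Z)
    (h1 : ∀ α β : H → G → X, jump H (jump G E) α β → ∃ n, θ β = r n (θ α))
    (h2 : ∀ α β : H → G → X, θ α = θ β → jump H (jump G E) α β) : False := by
  classical
  have ha' : a₀ ≠ a₁ := fun e => ha (e ▸ E.refl _)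
  -- enumeration of the nontrivial elements of `H`
  have hinf : Infinite {h : H // h ≠ 1} := by
    have : ({1}ᶜ : Set H).Infinite := (Set.finite_singleton (1 : H)).infinite_compl
    exact this.to_subtype
  obtain ⟨e⟩ : Nonempty ({h : H // h ≠ 1} ≃ ℕ) := by
    haveI : Denumerable {h : H // h ≠ 1} := by
      haveI := Encodable.ofCountable {h : H // h ≠ 1}
      exact Denumerable.ofEncodableOfInfinite _
    exact ⟨Denumerable.eqv _⟩
  let J : (ℕ → G → Bool) → (H → G → X) := fun x h g =>
    if hh : h = 1 then a₀ else if x (e ⟨h, hh⟩) g = true then a₁ else a₀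
  have hJc : Continuous J := by
    refine continuous_pi fun h => continuous_pi fun g => ?_
    by_cases hh : h = 1
    · simp only [J, hh, dif_pos]
      exact continuous_const
    · simp only [J, hh, dif_neg, not_false_eq_true]
      have h3 : Continuous fun b : Bool => if b = true then a₁ else a₀ :=
        continuous_of_discreteTopology
      exact h3.comp (by fun_prop : Continuous fun x : ℕ → G → Bool => x (e ⟨h, hh⟩) g)
  have hJm : @Measurable (ℕ → G → Bool) (H → G → X) _ (borel _) J := by
    rw [BorelSpace.measurable_eq (α := ℕ → G → Bool)]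
    exact hJc.borel_measurable
  refine core (fun x => θ (J x)) (@Measurable.comp _ _ _ _ (borel _) _ _ _ hθ hJm) r ?_ ?_
  · intro x γ
    apply h1
    refine ⟨1, fun h => ?_⟩
    rw [inv_one, one_mul]
    by_cases hh : h = 1
    · refine ⟨1, fun g => ?_⟩
      simp only [J, hh, dif_pos]
      exact E.refl _
    · refine ⟨γ (e ⟨h, hh⟩), fun g => ?_⟩
      simp only [J, hh, dif_neg, not_false_eq_true, act]
      exact E.refl _
  · intro x y hx hy hxy
    obtain ⟨g, hg⟩ := h2 _ _ hxy
    have hg1 : g = 1 := by
      by_contra hne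
      obtain ⟨g₁, hg₁⟩ := hg 1
      rw [mul_one] at hg₁
      have hne' : g⁻¹ ≠ 1 := fun e => hne (inv_eq_one.1 e)
      obtain ⟨h', hh'⟩ := hx (e ⟨g⁻¹, hne'⟩)
      have h5 := hg₁ (g₁ * h')
      rw [inv_mul_cancel_left] at h5
      simp only [J, hne', dif_neg, not_false_eq_true, hh', if_true, dif_pos] at h5
      exact ha (E.symm h5)
    subst hg1
    have h6 : ∀ i : ℕ, ∃ g₁ : G, ∀ h, x i (g₁⁻¹ * h) = y i h := by
      intro i
      obtain ⟨g₁, hg₁⟩ := hg (e.symm i).1
      refine ⟨g₁, fun h => ?_⟩
      have h7 := hg₁ h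
      rw [inv_one, one_mul] at h7
      have hne : (e.symm i).1 ≠ 1 := (e.symm i).2
      simp only [J, hne, dif_neg, not_false_eq_true] at h7
      simp only [Subtype.coe_eta, Equiv.apply_symm_apply] at h7
      by_cases hx1 : x i (g₁⁻¹ * h) = true <;> by_cases hy1 : y i h = true
      · rw [hx1, hy1]
      · simp only [hx1, hy1, if_true] at h7
        exact absurd (E.symm h7) ha
      · simp only [hx1, hy1, if_true] at h7
        exact absurd h7 ha
      · rw [Bool.not_eq_true] at hx1 hy1
        rw [hx1, hy1]
    choose γ hγ using h6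
    refine ⟨γ, ?_⟩
    funext i h
    exact (hγ i h).symm

/-- **Main theorem.** -/
theorem not_reducible {G H X : Type*} [Group G] [Group H] [Countable G] [Countable H] [Infinite G]
    [Infinite H] [TopologicalSpace X] [PolishSpace X] (E : Setoid X) (hE : Smooth E)
    (h2 : ∃ x y : X, ¬ E x y) {K : Type*} [Group K] [Countable K] :
    ¬ BorelReducible (jump H (jump G E)) (jump K E) := by
  rintro ⟨Φ, hΦ, hred⟩
  obtain ⟨a₀, a₁, ha⟩ := h2
  obtain ⟨Y, _, _, f, hf, hfE⟩ := hE
  letI : MeasurableSpace Y := borel Y
  haveI : BorelSpace Y := ⟨rfl⟩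
  letI : MeasurableSpace X := borel X
  haveI : BorelSpace X := ⟨rfl⟩
  obtain ⟨k, hk⟩ := exists_surjective_nat K
  have hK : borel (K → X) = MeasurableSpace.pi := (BorelSpace.measurable_eq (α := K → X)).symm
  rw [hK] at hΦ
  have hcomp : @Measurable (K → X) (K → Y) _ _ (fun β => f ∘ β) := by
    rw [measurable_pi_iff]
    intro c
    exact hf.comp (measurable_pi_apply c)
  refine no_map E ha (fun α => f ∘ Φ α) (@Measurable.comp _ _ _ (borel _) _ _ _ _ hcomp hΦ)
    (fun n z c => z ((k n)⁻¹ * c)) ?_ ?_
  · intro α β hαβ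
    obtain ⟨g, hg⟩ := (hred α β).1 hαβ
    obtain ⟨n, rfl⟩ := hk g
    refine ⟨n, ?_⟩
    funext c
    exact ((hfE _ _).1 (hg c)).symm
  · intro α β hαβ
    refine (hred α β).2 ⟨1, fun c => (hfE _ _).2 ?_⟩
    rw [inv_one, one_mul]
    exact congrFun hαβ c

end Pool.Agent.N623.Jump
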